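import Mathlib

/-!
Counting exponents of bounded degree (helper60).
-/

set_option autoImplicit false

namespace Pool.Agent.V8H60.Rig

/-- the number of exponents of degree at most `t` -/
theorem count_le {I : Type*} [Fintype I] [DecidableEq I] {d : ℕ} (hd : 0 < d) (t : ℕ)
    (A : Finset (I → ℕ)) (hA : ∀ a ∈ A, ∑ i, a i ≤ t) :
    (A.card : ℝ) ≤ (1 + 1 / (d : ℝ)) ^ t * ((d : ℝ) + 1) ^ Fintype.card I := by
  have hd' : (0 : ℝ) < d := by exact_mod_cast hd
  set x : ℝ := (d : ℝ) / (d + 1) with hx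
  have hx0 : 0 < x := by positivity
  have hx1 : x < 1 := by
    rw [hx, div_lt_one (by positivity)]
    linarith
  have h1 : (A.card : ℝ) * x ^ t ≤ ∑ a ∈ A, ∏ i, x ^ a i := by
    rw [← nsmul_eq_mul, ← Finset.sum_const]
    refine Finset.sum_le_sum fun a ha => ?_
    rw [Finset.prod_pow_eq_pow_sum]
    exact pow_le_pow_of_le_one hx0.le hx1.le (hA a ha)
  have h2 : ∑ a ∈ A, ∏ i, x ^ a i ≤
      ∑ a ∈ Fintype.piFinset (fun _ : I => Finset.range (t + 1)), ∏ i, x ^ a i := by
    refine Finset.sum_le_sum_of_subset_of_nonneg ?_ ?_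
    · intro a ha
      rw [Fintype.mem_piFinset]
      intro i
      rw [Finset.mem_range]
      have := Finset.single_le_sum (f := a) (fun j _ => Nat.zero_le _) (Finset.mem_univ i)
      have := hA a ha
      omega
    · intro a _ _
      positivity
  have h3 : ∑ a ∈ Fintype.piFinset (fun _ : I => Finset.range (t + 1)), ∏ i, x ^ a i =
      ∏ _i : I, ∑ k ∈ Finset.range (t + 1), x ^ k :=
    (Finset.prod_univ_sum (fun _ : I => Finset.range (t + 1)) (fun _ k => x ^ k)).symm
  have h4 : ∑ k ∈ Finset.range (t + 1), x ^ k ≤ (d : ℝ) + 1 := by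
    have h5 := geom_sum_eq hx1.ne (t + 1)
    have h6 : x - 1 = -1 / ((d : ℝ) + 1) := by
      rw [hx]
      field_simp
      ring
    rw [h5, h6]
    have h7 : (x ^ (t + 1) - 1) / (-1 / ((d : ℝ) + 1)) = (1 - x ^ (t + 1)) * ((d : ℝ) + 1) := by
      field_simp
      ring
    rw [h7]
    have h8 : 0 < x ^ (t + 1) := by positivity
    nlinarith
  have h5 : ∏ _i : I, ∑ k ∈ Finset.range (t + 1), x ^ k ≤ ((d : ℝ) + 1) ^ Fintype.card I := by
    rw [Finset.prod_const, Finset.card_univ]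
    exact pow_le_pow_left₀ (Finset.sum_nonneg fun k _ => by positivity) h4 _
  have h6 : (1 + 1 / (d : ℝ)) ^ t * x ^ t = 1 := by
    rw [← mul_pow, hx]
    have : (1 + 1 / (d : ℝ)) * (d / (d + 1)) = 1 := by
      field_simp
    rw [this, one_pow]
  have h7 : (A.card : ℝ) * x ^ t ≤ ((d : ℝ) + 1) ^ Fintype.card I :=
    h1.trans (h2.trans (h3.le.trans h5))
  calc (A.card : ℝ) = (1 + 1 / (d : ℝ)) ^ t * ((A.card : ℝ) * x ^ t) := by
        rw [mul_comm (A.card : ℝ), ← mul_assoc, h6, one_mul]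
    _ ≤ _ := mul_le_mul_of_nonneg_left h7 (by positivity)

end Pool.Agent.V8H60.Rig
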