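import Pool.Agent.NPC.Defs

/-!
# Rigidity and explicit matrices: definitions (helper60)

Polynomial time is `Pool.Agent.NPC.PolyTime`, that is, computability by a Turing machine in
polynomial time in the sense of Mathlib (`Turing.TM2ComputableInPolyTime`), for functions on bit
strings; `Pool.Agent.NPC.bits` is the standard code of lists, pairs, integers (in binary) and
rational numbers by bit strings.
-/

set_option autoImplicit false

namespace Pool.Agent.V8H60.Rig

open Polynomial Pool.Agent.NPC

/-- the number of nonzero entries -/
noncomputable def sp {F : Type*} [Zero F] {n : ℕ} (S : Matrix (Fin n) (Fin n) F) : ℕ :=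
  Nat.card {e : Fin n × Fin n // S e.1 e.2 ≠ 0}

/-- `A` is `(r, s)`-rigid: there is no decomposition `A = R + S` in which the rank of `R` is at
most `r` and `S` has at most `s` nonzero entries -/
def Rigid {F : Type*} [Field F] {n : ℕ} (A : Matrix (Fin n) (Fin n) F) (r s : ℕ) : Prop :=
  ¬ ∃ R S : Matrix (Fin n) (Fin n) F, A = R + S ∧ R.rank ≤ r ∧ sp S ≤ s

/-- the polynomial with the given list of coefficients, the constant coefficient first -/
noncomputable def dense : List ℤ → ℚ[X]
  | [] => 0
  | c :: l => C (c : ℚ) + X * dense l

/-- the polynomial with the given list of terms; the pair `(k, c)` stands for `c X ^ k` -/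
noncomputable def sparse : List (ℕ × ℤ) → ℚ[X]
  | [] => 0
  | t :: l => C (t.2 : ℚ) * X ^ t.1 + sparse l

/-- `x` is the real algebraic number with minimal polynomial `P` and isolating interval
`[I.1, I.2]` -/
def Isolates (P : ℚ[X]) (I : ℚ × ℚ) (x : ℝ) : Prop :=
  minpoly ℚ x = P ∧ (I.1 : ℝ) ≤ x ∧ x ≤ I.2 ∧
    ∀ y : ℝ, (I.1 : ℝ) ≤ y → y ≤ I.2 → aeval y P = 0 → y = x

/-- The family `A` is explicit: a Turing machine computes in polynomial time, from `n` in unary,
the list of the rows of `A n`, where each entry is described by the list of all coefficients of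
its minimal polynomial and by an isolating interval with rational end points. -/
def Explicit (A : (n : ℕ) → Matrix (Fin n) (Fin n) ℝ) : Prop :=
  ∃ f : List Bool → List Bool, PolyTime f ∧ ∀ n : ℕ, ∃ d : Fin n → Fin n → List ℤ × ℚ × ℚ,
    f (List.replicate n true) = bits (List.ofFn fun i => List.ofFn fun j => d i j) ∧
      ∀ i j, Isolates (dense (d i j).1) (d i j).2 (A n i j)

/-- The same with sparse minimal polynomials: each minimal polynomial is given by the list of its
terms, with exponents in binary. -/
def SparselyExplicit (A : (n : ℕ) → Matrix (Fin n) (Fin n) ℝ) : Prop :=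
  ∃ f : List Bool → List Bool, PolyTime f ∧
    ∀ n : ℕ, ∃ d : Fin n → Fin n → List (ℕ × ℤ) × ℚ × ℚ,
      f (List.replicate n true) = bits (List.ofFn fun i => List.ofFn fun j => d i j) ∧
        ∀ i j, Isolates (sparse (d i j).1) (d i j).2 (A n i j)

end Pool.Agent.V8H60.Rig
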