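import Pool.Agent.V8H60.Rig.Radical

/-!
Lists of primes and minimal polynomials of their roots (helper60).
-/

set_option autoImplicit false

namespace Pool.Agent.V8H60.Rig

/-- there are at least `m` primes up to `64 (m + 1) ^ 2` -/
theorem pi_sq (m : ℕ) : m ≤ Nat.primeCounting (64 * (m + 1) ^ 2) := by
  set N := 64 * (m + 1) ^ 2 with hN
  have h1 := Chebyshev.pi_ge N
  have hNr : (N : ℝ) = 64 * ((m : ℝ) + 1) ^ 2 := by rw [hN]; push_cast; ring
  have hm : (0 : ℝ) ≤ m := Nat.cast_nonneg m
  have hN1 : (1 : ℝ) < N := by rw [hNr]; nlinarith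
  have hlog : 0 < Real.log N := Real.log_pos hN1
  have h2 : Real.log N ≤ 16 * ((m : ℝ) + 1) - 2 := by
    have h3 : (N : ℝ) = (8 * ((m : ℝ) + 1)) ^ 2 := by rw [hNr]; ring
    rw [h3, Real.log_pow]
    have h4 := Real.log_le_sub_one_of_pos (show 0 < 8 * ((m : ℝ) + 1) by positivity)
    push_cast
    linarith
  have h3 : Real.log (N + 1) ≤ 2 * Real.log N := by
    have h4 : Real.log ((N : ℝ) ^ 2) = 2 * Real.log N := by rw [Real.log_pow]; push_cast; ring
    rw [← h4]
    apply Real.log_le_log (by linarith)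
    nlinarith
  have h5 : ((m : ℝ) + 2) * Real.log N ≤ N * Real.log 2 := by
    have h6 : (0.69 : ℝ) < Real.log 2 := by
      have := Real.log_two_gt_d9
      linarith
    have h7 : ((m : ℝ) + 2) * Real.log N ≤ ((m : ℝ) + 2) * (16 * ((m : ℝ) + 1) - 2) :=
      mul_le_mul_of_nonneg_left h2 (by linarith)
    have h8 : (N : ℝ) * 0.69 ≤ N * Real.log 2 := mul_le_mul_of_nonneg_left h6.le (by linarith)
    refine h7.trans (le_trans ?_ h8)
    rw [hNr]
    nlinarith
  have h9 : (m : ℝ) ≤ Nat.primeCounting N := by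
    refine le_trans ?_ h1
    rw [le_div_iff₀ hlog]
    linarith
  exact_mod_cast h9

/-- trial division by the numbers below `M` -/
def isP (M k : ℕ) : Bool :=
  decide (2 ≤ k) && (List.range M).all (fun j => decide (j < 2) || (decide (k ≤ j) ||
    !(decide (k % j = 0))))

theorem isP_iff {M k : ℕ} (hk : k ≤ M) : isP M k = true ↔ k.Prime := by
  unfold isP
  rw [Bool.and_eq_true, decide_eq_true_eq, List.all_eq_true, Nat.prime_def]
  constructor
  · rintro ⟨h1, h2⟩
    refine ⟨h1, fun j hj => ?_⟩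
    rcases Nat.lt_or_ge j k with h3 | h3
    · left
      have h4 := h2 j (List.mem_range.2 (h3.trans_le hk))
      have h5 : k % j = 0 := Nat.mod_eq_zero_of_dvd hj
      have h5' : ¬ k ≤ j := not_le.2 h3
      simp only [h5, h5', decide_true, decide_false, Bool.not_true, Bool.or_false,
        decide_eq_true_eq] at h4
      have h6 : j ≠ 0 := by
        rintro rfl
        have := Nat.eq_zero_of_zero_dvd hj
        omega
      omega
    · right
      exact le_antisymm (Nat.le_of_dvd (by omega) hj) h3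
  · rintro ⟨h1, h2⟩
    refine ⟨h1, fun j hj => ?_⟩
    by_cases h3 : k % j = 0
    · rcases h2 j (Nat.dvd_of_mod_eq_zero h3) with h4 | h4
      · have : j < 2 := by omega
        simp [this]
      · have : k ≤ j := by omega
        simp [this]
    · simp [h3]

/-- the list of the primes up to `N` -/
def pl (N : ℕ) : List ℕ := (List.range (N + 1)).filter (fun k => isP (N + 1) k)

theorem pl_length (N : ℕ) : (pl N).length = Nat.primeCounting N := by
  unfold pl Nat.primeCounting Nat.primeCounting'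
  rw [Nat.count_eq_card_filter_range, ← List.countP_eq_length_filter]
  have h1 : ((Finset.range (N + 1)).filter Nat.Prime).card =
      (List.range (N + 1)).countP (fun k => decide k.Prime) := by
    rw [List.countP_eq_length_filter]
    rfl
  rw [h1]
  refine List.countP_congr fun k hk => ?_
  rw [isP_iff (List.mem_range.1 hk).le, decide_eq_true_eq]

theorem pl_nodup (N : ℕ) : (pl N).Nodup := List.nodup_range.filter _

theorem pl_prime {N k : ℕ} (h : k ∈ pl N) : k.Prime := by
  unfold pl at h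
  rw [List.mem_filter] at h
  exact (isP_iff (List.mem_range.1 h.1).le).1 h.2

/-- the `k`-th prime of the list -/
def pk (N k : ℕ) : ℕ := (pl N).getD k 0

theorem pk_prime {N k : ℕ} (h : k < Nat.primeCounting N) : (pk N k).Prime := by
  rw [← pl_length] at h
  unfold pk
  rw [List.getD_eq_getElem _ _ h]
  exact pl_prime (List.getElem_mem h)

theorem pk_inj {N k l : ℕ} (hk : k < Nat.primeCounting N) (hl : l < Nat.primeCounting N)
    (h : pk N k = pk N l) : k = l := by
  rw [← pl_length] at hk hl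
  unfold pk at h
  rw [List.getD_eq_getElem _ _ hk, List.getD_eq_getElem _ _ hl] at h
  exact (List.Nodup.getElem_inj_iff (pl_nodup N)).1 h

/-- a bound for the primes used in the matrices -/
def Bn (n : ℕ) : ℕ := 64 * (n * n + 1) ^ 2

/-- the primes used in the matrices -/
def pe (n : ℕ) (e : Fin n × Fin n) : ℕ := pk (Bn n) (e.1 * n + e.2)

theorem pe_lt {n : ℕ} (e : Fin n × Fin n) : (e.1 : ℕ) * n + e.2 < n * n := by
  have h1 := e.1.2
  have h2 := e.2.2
  nlinarith

theorem pe_prime {n : ℕ} (e : Fin n × Fin n) : (pe n e).Prime :=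
  pk_prime ((pe_lt e).trans_le (pi_sq (n * n)))

theorem pe_inj {n : ℕ} : Function.Injective (pe n) := by
  intro e e' h
  have h1 := pk_inj ((pe_lt e).trans_le (pi_sq (n * n))) ((pe_lt e').trans_le (pi_sq (n * n))) h
  have hn : 0 < n := Fin.pos e.1
  have h2 := e.2.2
  have h3 := e'.2.2
  have h4 : (e.1 : ℕ) = e'.1 := by
    have a1 : ((e.1 : ℕ) * n + e.2) / n = e.1 := by
      rw [mul_comm, Nat.mul_add_div hn, Nat.div_eq_of_lt h2, add_zero]
    have a2 : ((e'.1 : ℕ) * n + e'.2) / n = e'.1 := by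
      rw [mul_comm, Nat.mul_add_div hn, Nat.div_eq_of_lt h3, add_zero]
    rw [← a1, ← a2, h1]
  have h5 : (e.2 : ℕ) = e'.2 := by
    rw [h4] at h1
    omega
  exact Prod.ext (Fin.ext h4) (Fin.ext h5)

open Polynomial in
/-- the minimal polynomial of a root of a prime -/
theorem minpoly_root {p D : ℕ} (hp : p.Prime) (hD : D ≠ 0) {x : ℝ} (hx : 0 < x)
    (hxD : x ^ D = p) : minpoly ℚ x = X ^ D - C (p : ℚ) := by
  obtain ⟨m, r, hm, hmr⟩ := minpoly_radical hx hD (q := p) (by rw [hxD]; simp)
  have hint : IsIntegral ℚ x := by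
    refine IsIntegral.of_pow (Nat.pos_of_ne_zero hD) ?_
    have h0 := isIntegral_algebraMap (R := ℚ) (A := ℝ) (x := (p : ℚ))
    rw [hxD]
    simpa using h0
  have h1 := minpoly.aeval ℚ x
  rw [hmr, map_sub, map_pow, aeval_X, aeval_C, sub_eq_zero] at h1
  have h1' : x ^ m = (r : ℝ) := h1
  have hr : r ≠ 0 := by
    rintro rfl
    have := pow_pos hx m
    rw [h1'] at this
    simp at this
  have h2 : r ^ D = (p : ℚ) ^ m := by
    have h3 : ((r : ℝ)) ^ D = (p : ℝ) ^ m := by
      rw [← h1', ← hxD, ← pow_mul, ← pow_mul, mul_comm]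
    exact_mod_cast h3
  have : Fact p.Prime := ⟨hp⟩
  have h3 := congrArg (padicValRat p) h2
  rw [padicValRat.pow, padicValRat.pow, padicValRat.of_nat, padicValNat_self] at h3
  have h4 : m ≤ D := by
    have h5 : minpoly ℚ x ∣ X ^ D - C (p : ℚ) := by
      apply minpoly.dvd
      rw [map_sub, map_pow, aeval_X, aeval_C, hxD]
      simp
    have h6 := natDegree_le_of_dvd h5 (monic_X_pow_sub_C _ hD).ne_zero
    rwa [hmr, natDegree_X_pow_sub_C, natDegree_X_pow_sub_C] at h6
  have h5 : (D : ℤ) ∣ m := ⟨padicValRat p r, by push_cast at h3; linarith⟩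
  have h6 : D ∣ m := by exact_mod_cast h5
  have h7 : m = D := le_antisymm h4 (Nat.le_of_dvd (Nat.pos_of_ne_zero hm) h6)
  subst h7
  have h8 : r = (p : ℚ) := by
    have : (r : ℝ) = (p : ℝ) := by rw [← h1', hxD]
    exact_mod_cast this
  rw [hmr, h8]

end Pool.Agent.V8H60.Rig
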