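import Pool.Agent.V8H60.Rig.Defs
import Pool.Agent.V8H60.Rig.Primes
import Pool.Agent.H671R2.PolyAuto
import Pool.Agent.NPC.Dec

/-!
The computations are in polynomial time (helper60).
-/

set_option autoImplicit false

namespace Pool.Agent.V8H60.Rig

open Polynomial Pool.Agent.NPC

variable {α β : Type} [TEnc α] [TEnc β]

theorem natCast_rat {f : α → ℕ} (hf : NPC.Poly f) : NPC.Poly (fun a => ((f a : ℕ) : ℚ)) :=
  NPC.Poly.of_toT ((NPC.Poly.toT' (NPC.Poly.pair (NPC.Poly.natCast_int hf) (NPC.Poly.const 1))).congr fun a => by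
    change toT (((f a : ℕ) : ℤ), 1) = toT (((f a : ℕ) : ℚ).num, ((f a : ℕ) : ℚ).den)
    simp)

theorem neg_natCast_int {f : α → ℕ} (hf : NPC.Poly f) : NPC.Poly (fun a => -((f a : ℕ) : ℤ)) :=
  NPC.Poly.of_toT ((NPC.Poly.toT' (NPC.Poly.pair (NPC.Poly.decide_lt (NPC.Poly.const 0) hf) hf)).congr fun a => by
    change toT (decide (0 < f a), f a) = toT (decide (-((f a : ℕ) : ℤ) < 0),
      (-((f a : ℕ) : ℤ)).natAbs)
    simp)

set_option maxHeartbeats 400000

theorem two_pow {f : α → ℕ} (hf : UPoly f) : NPC.Poly (fun a => 2 ^ f a) := by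
  have h1 : NPC.Poly (fun a => ((List.replicate (f a) ()).map (fun _ => false)) ++ [true]) := by
    have : NPC.Poly (fun a => List.replicate (f a) ()) := hf
    fun_prop
  refine (NPC.Poly.valBits h1).congr fun a => ?_
  rw [valB_append]
  have h2 : ∀ k : ℕ, valB ((List.replicate k ()).map (fun _ => false)) = 0 := by
    intro k
    induction k with
    | zero => rfl
    | succ k ih =>
      rw [List.replicate_succ, List.map_cons, valB_cons, ih]
      rfl
  rw [h2]
  simp

attribute [local fun_prop] natCast_rat neg_natCast_int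

theorem poly_isP : NPC.Poly (fun p : List Unit × ℕ => isP p.1.length p.2) := by
  unfold isP
  have h1 : NPC.Poly (fun p : List Unit × ℕ => List.range p.1.length) :=
    (UPoly.length (NPC.Poly.fst NPC.Poly.id)).range
  fun_prop

theorem uB : UPoly (fun x : List Bool => Bn x.length + 1) := by
  have hl : UPoly (fun x : List Bool => x.length) := UPoly.length NPC.Poly.id
  have h1 : UPoly (fun x : List Bool => x.length * x.length + 1) :=
    (hl.mul hl).add (UPoly.const 1)
  have h2 := ((UPoly.const (α := List Bool) 64).mul (h1.mul h1)).add (UPoly.const 1)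
  refine NPC.Poly.congr h2 fun x => ?_
  unfold Bn
  congr 1
  ring

attribute [local irreducible] Bn isP

theorem uB' : NPC.Poly (fun p : List Bool × ℕ => List.replicate (Bn p.1.length + 1) ()) :=
  NPC.Poly.comp (f := fun p : List Bool × ℕ => p.1) (show NPC.Poly
    (fun x : List Bool => List.replicate (Bn x.length + 1) ()) from uB) (NPC.Poly.fst NPC.Poly.id)

theorem poly_pl : NPC.Poly (fun x : List Bool => pl (Bn x.length)) := by
  unfold pl
  have h1 := uB.range
  have h3 : NPC.Poly (fun p : List Bool × ℕ => (List.replicate (Bn p.1.length + 1) (), p.2)) :=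
    NPC.Poly.pair uB' (NPC.Poly.snd NPC.Poly.id)
  have h2 : NPC.Poly (fun p : List Bool × ℕ => isP (Bn p.1.length + 1) p.2) := by
    refine (NPC.Poly.comp poly_isP h3).congr fun p => ?_
    rw [List.length_replicate]
  exact NPC.Poly.filter (p := fun x k => isP (Bn x.length + 1) k) h1 h2

/-- the primes, for words -/
def prm (p : List Bool × ℕ) : ℕ := pk (Bn p.1.length) p.2

theorem poly_prm : NPC.Poly prm := by
  unfold prm pk
  exact NPC.Poly.getD (NPC.Poly.comp (f := fun p : List Bool × ℕ => p.1) poly_pl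
    (NPC.Poly.fst NPC.Poly.id)) (NPC.Poly.snd NPC.Poly.id) (NPC.Poly.const 0)

/-- the coefficients and the interval of the root of order `n + 2` -/
def dEntry (n p : ℕ) : List ℤ × ℚ × ℚ :=
  ((-(p : ℤ)) :: ((List.range (n + 1)).map (fun _ => (0 : ℤ)) ++ [1]), 0, ((p + 1 : ℕ) : ℚ))

/-- the terms and the interval of the root of order `2 ^ (3 n ^ 2 + 1)` -/
def sEntry (n p : ℕ) : List (ℕ × ℤ) × ℚ × ℚ :=
  ([(0, -(p : ℤ)), (2 ^ (3 * (n * n) + 1), 1)], 0, ((p + 1 : ℕ) : ℚ))

theorem poly_dEntry : NPC.Poly (fun p : List Bool × ℕ => dEntry p.1.length p.2) := by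
  unfold dEntry
  have h2 : NPC.Poly (fun x : List Bool => List.range (x.length + 1)) :=
    ((UPoly.length NPC.Poly.id).add (UPoly.const 1)).range
  have h3 : NPC.Poly (fun x : List Bool =>
      (List.range (x.length + 1)).map (fun _ => (0 : ℤ)) ++ [1]) :=
    NPC.Poly.append (NPC.Poly.map (F := fun _ _ => (0 : ℤ)) h2 (NPC.Poly.const 0))
      (NPC.Poly.const [1])
  have h4 : NPC.Poly (fun p : List Bool × ℕ =>
      (List.range (p.1.length + 1)).map (fun _ => (0 : ℤ)) ++ [1]) :=
    NPC.Poly.comp (f := fun p : List Bool × ℕ => p.1) h3 (NPC.Poly.fst NPC.Poly.id)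
  exact NPC.Poly.pair (NPC.Poly.cons (neg_natCast_int (NPC.Poly.snd NPC.Poly.id)) h4)
    (NPC.Poly.pair (NPC.Poly.const 0) (natCast_rat
      (NPC.Poly.succ (NPC.Poly.snd NPC.Poly.id))))

theorem poly_sEntry : NPC.Poly (fun p : List Bool × ℕ => sEntry p.1.length p.2) := by
  unfold sEntry
  have h2 : NPC.Poly (fun x : List Bool => 2 ^ (3 * (x.length * x.length) + 1)) := by
    have hl : UPoly (fun x : List Bool => x.length) := UPoly.length NPC.Poly.id
    exact two_pow (((UPoly.const 3).mul (hl.mul hl)).add (UPoly.const 1))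
  have h3 : NPC.Poly (fun p : List Bool × ℕ => 2 ^ (3 * (p.1.length * p.1.length) + 1)) :=
    NPC.Poly.comp (f := fun p : List Bool × ℕ => p.1) h2 (NPC.Poly.fst NPC.Poly.id)
  exact NPC.Poly.pair (NPC.Poly.cons (NPC.Poly.pair (NPC.Poly.const 0)
    (neg_natCast_int (NPC.Poly.snd NPC.Poly.id)))
    (NPC.Poly.cons (NPC.Poly.pair h3 (NPC.Poly.const 1)) (NPC.Poly.const [])))
    (NPC.Poly.pair (NPC.Poly.const 0) (natCast_rat
      (NPC.Poly.succ (NPC.Poly.snd NPC.Poly.id))))

/-- the rows of the matrix with the given entries -/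
def rows {β : Type} (E : List Bool × ℕ → β) (x : List Bool) : List (List β) :=
  (List.range x.length).map fun i => (List.range x.length).map fun j => E (x, i * x.length + j)

theorem poly_rows {E : List Bool × ℕ → β} (hE : NPC.Poly E) : NPC.Poly (rows E) := by
  unfold rows
  have h1 : NPC.Poly (fun x : List Bool => List.range x.length) := (UPoly.length NPC.Poly.id).range
  have h2 : NPC.Poly (fun x : List Bool => x.length) := NPC.Poly.length NPC.Poly.id
  refine NPC.Poly.map (F := fun x i => (List.range x.length).map fun j =>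
    E (x, i * x.length + j)) h1 ?_
  refine NPC.Poly.map (F := fun (p : List Bool × ℕ) j => E (p.1, p.2 * p.1.length + j))
    (NPC.Poly.comp (f := fun p : List Bool × ℕ => p.1) h1 (NPC.Poly.fst NPC.Poly.id)) ?_
  have h3 : NPC.Poly (fun q : (List Bool × ℕ) × ℕ => q.1.1) :=
    NPC.Poly.fst (NPC.Poly.fst NPC.Poly.id)
  have h4 : NPC.Poly (fun q : (List Bool × ℕ) × ℕ => q.1.1.length) :=
    NPC.Poly.comp (f := fun q : (List Bool × ℕ) × ℕ => q.1.1) h2 h3
  exact NPC.Poly.comp (f := fun q : (List Bool × ℕ) × ℕ => (q.1.1, q.1.2 * q.1.1.length + q.2))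
    hE (NPC.Poly.pair h3 (NPC.Poly.add (NPC.Poly.mul (NPC.Poly.snd (NPC.Poly.fst NPC.Poly.id)) h4)
      (NPC.Poly.snd NPC.Poly.id)))

theorem poly_D : NPC.Poly (fun p : List Bool × ℕ => dEntry p.1.length (prm p)) :=
  NPC.Poly.comp (f := fun p : List Bool × ℕ => (p.1, prm p)) poly_dEntry
    (NPC.Poly.pair (NPC.Poly.fst NPC.Poly.id) poly_prm)

theorem poly_S : NPC.Poly (fun p : List Bool × ℕ => sEntry p.1.length (prm p)) :=
  NPC.Poly.comp (f := fun p : List Bool × ℕ => (p.1, prm p)) poly_sEntry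
    (NPC.Poly.pair (NPC.Poly.fst NPC.Poly.id) poly_prm)

omit [TEnc β] in
theorem rows_eq {E : List Bool × ℕ → β} (n : ℕ) : rows E (List.replicate n true) =
    List.ofFn fun i : Fin n => List.ofFn fun j : Fin n =>
      E (List.replicate n true, (i : ℕ) * n + j) := by
  unfold rows
  rw [List.length_replicate]
  have h : ∀ {γ : Type} (f : ℕ → γ), (List.range n).map f = List.ofFn fun i : Fin n => f i := by
    intro γ f
    apply List.ext_getElem
    · simp
    · intro k h1 h2
      simp
  rw [h]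
  congr 1
  funext i
  rw [h]

end Pool.Agent.V8H60.Rig
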