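import Pool.Agent.V8H60.Rig.Rank
import Pool.Agent.V8H60.Rig.Enc

/-!
Explicit matrices of near-maximal and of maximal rigidity (helper60).
-/

set_option autoImplicit false

namespace Pool.Agent.V8H60.Rig

open Polynomial Pool.Agent.NPC

theorem sp_eq {F : Type*} [Zero F] [DecidableEq F] {n : ℕ} (S : Matrix (Fin n) (Fin n) F) :
    sp S = (Finset.univ.filter fun e : Fin n × Fin n => S e.1 e.2 ≠ 0).card := by
  unfold sp
  rw [Nat.card_eq_fintype_card, Fintype.card_subtype]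

theorem rigid_of_complex {n : ℕ} {A : Matrix (Fin n) (Fin n) ℝ} {r s : ℕ} (hrn : r ≤ n)
    (h : Rigid (A.map (algebraMap ℝ ℂ)) r s) : Rigid A r s := by
  classical
  rintro ⟨R, S, h1, h2, h3⟩
  refine h ⟨R.map (algebraMap ℝ ℂ), S.map (algebraMap ℝ ℂ), ?_, rank_map_le R h2 hrn, ?_⟩
  · rw [h1, Matrix.map_add _ (map_add (algebraMap ℝ ℂ))]
  · rw [sp_eq] at h3 ⊢
    have : (Finset.univ.filter fun e : Fin n × Fin n => (S.map (algebraMap ℝ ℂ)) e.1 e.2 ≠ 0) =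
        (Finset.univ.filter fun e : Fin n × Fin n => S e.1 e.2 ≠ 0) := by
      ext e
      simp [Matrix.map_apply]
    rw [this]
    exact h3

/-- the bound for all orders -/
theorem rigid_roots {n D r : ℕ} (q : Fin n × Fin n → ℕ) (hD : 2 ≤ D) (hrn : r ≤ n)
    (hq : ∀ e, (q e).Prime) (hinj : Function.Injective q) {s : ℕ}
    (hs : (s : ℝ) < ((n : ℝ) - r) ^ 2 - 2 * (n : ℝ) ^ 2 / Real.log D) :
    Rigid ((Matrix.of fun i j => (q (i, j) : ℝ) ^ (D : ℝ)⁻¹).map (algebraMap ℝ ℂ)) r s := by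
  classical
  rintro ⟨R, S, h1, h2, h3⟩
  have hq0 : ∀ e, (0 : ℝ) < q e := fun e => by exact_mod_cast (hq e).pos
  have h := rigid_radicals hD hrn q hq hinj (fun e => (q e : ℝ) ^ (D : ℝ)⁻¹)
    (fun e => Real.rpow_pos_of_pos (hq0 e) _)
    (fun e => Real.rpow_inv_natCast_pow (hq0 e).le (by omega)) R S (fun i j => by
      have := congrFun (congrFun h1 i) j
      exact this) h2
  rw [sp_eq] at h3
  have h4 : (((Finset.univ.filter fun e : Fin n × Fin n => S e.1 e.2 ≠ 0).card : ℕ) : ℝ) ≤ s := by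
    exact_mod_cast h3
  linarith

/-- the matrices of the roots of order `n + 2` -/
noncomputable def AD (n : ℕ) : Matrix (Fin n) (Fin n) ℝ :=
  Matrix.of fun i j => (pe n (i, j) : ℝ) ^ ((n + 2 : ℕ) : ℝ)⁻¹

/-- the matrices of the roots of order `2 ^ (3 n ^ 2 + 1)` -/
noncomputable def AS (n : ℕ) : Matrix (Fin n) (Fin n) ℝ :=
  Matrix.of fun i j => (pe n (i, j) : ℝ) ^ ((2 ^ (3 * (n * n) + 1) : ℕ) : ℝ)⁻¹

theorem isolates {p D : ℕ} (hp : p.Prime) (hD : D ≠ 0) :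
    Isolates (X ^ D - C (p : ℚ)) (0, ((p + 1 : ℕ) : ℚ)) ((p : ℝ) ^ (D : ℝ)⁻¹) := by
  have hp0 : (0 : ℝ) < p := by exact_mod_cast hp.pos
  have hx : 0 < (p : ℝ) ^ (D : ℝ)⁻¹ := Real.rpow_pos_of_pos hp0 _
  have hxD : ((p : ℝ) ^ (D : ℝ)⁻¹) ^ D = p := Real.rpow_inv_natCast_pow hp0.le hD
  refine ⟨minpoly_root hp hD hx hxD, by simpa using hx.le, ?_, ?_⟩
  · by_contra hcon
    push Not at hcon
    have h1 : ((p : ℝ) + 1) < (p : ℝ) ^ (D : ℝ)⁻¹ := by simpa using hcon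
    have h2 : ((p : ℝ) + 1) ^ D < ((p : ℝ) ^ (D : ℝ)⁻¹) ^ D :=
      pow_lt_pow_left₀ h1 (by positivity) hD
    rw [hxD] at h2
    have h3 : ((p : ℝ) + 1) ≤ ((p : ℝ) + 1) ^ D := le_self_pow₀ (by linarith) hD
    linarith
  · intro y hy0 _ hy
    rw [map_sub, map_pow, aeval_X, aeval_C, sub_eq_zero] at hy
    have hy' : y ^ D = (p : ℝ) := by simpa using hy
    have hy0' : 0 ≤ y := by simpa using hy0
    rw [← hxD] at hy'
    exact (pow_left_inj₀ hy0' hx.le hD).1 hy'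

theorem dense_zeros (k : ℕ) : dense (List.replicate k 0 ++ [1]) = X ^ k := by
  induction k with
  | zero => simp [dense]
  | succ k ih =>
    rw [List.replicate_succ, List.cons_append, dense, ih, pow_succ]
    simp [mul_comm]

theorem dense_dEntry (n p : ℕ) : dense (dEntry n p).1 = X ^ (n + 2) - C (p : ℚ) := by
  unfold dEntry
  simp only
  rw [dense, List.map_const', List.length_range, dense_zeros]
  simp only [Int.cast_neg, Int.cast_natCast, map_neg]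
  ring

theorem sparse_sEntry (n p : ℕ) :
    sparse (sEntry n p).1 = X ^ (2 ^ (3 * (n * n) + 1)) - C (p : ℚ) := by
  unfold sEntry
  simp only
  rw [sparse, sparse, sparse]
  simp only [Int.cast_neg, Int.cast_natCast, map_neg, pow_zero, Int.cast_one, map_one, mul_one,
    one_mul, add_zero]
  ring

theorem explicit_AD : Explicit AD := by
  refine ⟨fun x => bits (rows (fun p => dEntry p.1.length (prm p)) x),
    polyTime_bits (poly_rows poly_D), fun n => ⟨fun i j => dEntry n (pe n (i, j)), ?_, ?_⟩⟩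
  · show bits (rows _ _) = _
    rw [rows_eq]
    simp only [List.length_replicate, prm]
    rfl
  · intro i j
    rw [dense_dEntry]
    exact isolates (pe_prime (i, j)) (by omega)

theorem explicit_AS : SparselyExplicit AS := by
  refine ⟨fun x => bits (rows (fun p => sEntry p.1.length (prm p)) x),
    polyTime_bits (poly_rows poly_S), fun n => ⟨fun i j => sEntry n (pe n (i, j)), ?_, ?_⟩⟩
  · show bits (rows _ _) = _
    rw [rows_eq]
    simp only [List.length_replicate, prm]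
    rfl
  · intro i j
    rw [sparse_sEntry]
    exact isolates (pe_prime (i, j)) (by positivity)

/-- near-maximal rigidity -/
theorem rigid_AD (ε : ℝ) (hε : 0 < ε) : ∃ N : ℕ, ∀ n ≥ N, ∀ r ≤ n, ∀ s : ℕ,
    (s : ℝ) ≤ ((n : ℝ) - r) ^ 2 - ε * (n : ℝ) ^ 2 →
      Rigid ((AD n).map (algebraMap ℝ ℂ)) r s := by
  obtain ⟨N, hN⟩ := exists_nat_gt (Real.exp (2 / ε))
  refine ⟨N + 1, fun n hn r hr s hs => ?_⟩
  refine rigid_roots (pe n) (by omega) hr pe_prime pe_inj (lt_of_le_of_lt hs ?_)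
  have hn0 : (0 : ℝ) < n := by exact_mod_cast (by omega : 0 < n)
  have h1 : Real.exp (2 / ε) < ((n + 2 : ℕ) : ℝ) := by
    refine hN.trans ?_
    exact_mod_cast (by omega : N < n + 2)
  have h2 : 2 / ε < Real.log ((n + 2 : ℕ) : ℝ) := by
    rw [Real.lt_log_iff_exp_lt (by positivity)]
    exact h1
  have hl : 0 < Real.log ((n + 2 : ℕ) : ℝ) := lt_trans (by positivity) h2
  have h3 : 2 * (n : ℝ) ^ 2 / Real.log ((n + 2 : ℕ) : ℝ) < ε * (n : ℝ) ^ 2 := by
    rw [div_lt_iff₀ hl]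
    rw [div_lt_iff₀ hε] at h2
    have : 0 < (n : ℝ) ^ 2 := by positivity
    nlinarith
  linarith

/-- maximal rigidity -/
theorem rigid_AS {n r s : ℕ} (hr : r ≤ n) (hs : s < (n - r) ^ 2) :
    Rigid ((AS n).map (algebraMap ℝ ℂ)) r s := by
  have h2k : 2 ≤ 2 ^ (3 * (n * n) + 1) := by
    calc 2 = 2 ^ 1 := rfl
      _ ≤ _ := Nat.pow_le_pow_right (by norm_num) (by omega)
  refine rigid_roots (pe n) h2k hr pe_prime pe_inj ?_
  have h1 : ((n : ℝ) - r) ^ 2 = (((n - r) ^ 2 : ℕ) : ℝ) := by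
    push_cast [Nat.cast_sub hr]
    ring
  have h2 : (s : ℝ) + 1 ≤ (((n - r) ^ 2 : ℕ) : ℝ) := by exact_mod_cast hs
  have hlog : 2 * (n : ℝ) ^ 2 < Real.log ((2 ^ (3 * (n * n) + 1) : ℕ) : ℝ) := by
    push_cast
    rw [Real.log_pow]
    have := Real.log_two_gt_d9
    push_cast
    nlinarith [sq_nonneg (n : ℝ)]
  have hl : 0 < Real.log ((2 ^ (3 * (n * n) + 1) : ℕ) : ℝ) := lt_of_le_of_lt (by positivity) hlog
  have h3 : 2 * (n : ℝ) ^ 2 / Real.log ((2 ^ (3 * (n * n) + 1) : ℕ) : ℝ) < 1 := by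
    rw [div_lt_one hl]
    exact hlog
  rw [h1]
  linarith

/-- the parameters of the question -/
theorem rigid_Q (ε δ : ℝ) (hε1 : ε < 1) (hδ1 : δ < 1) :
    ∃ N : ℕ, ∀ n ≥ N, ∀ r s : ℕ, (r : ℝ) ≤ ε * n → (s : ℝ) ≤ (n : ℝ) ^ (1 + δ) →
      Rigid (AD n) r s ∧ Rigid ((AD n).map (algebraMap ℝ ℂ)) r s := by
  set c : ℝ := (1 - ε) ^ 2 / 2 with hc
  have hc0 : 0 < c := by
    have : 0 < 1 - ε := by linarith
    positivity
  obtain ⟨N1, hN1⟩ := rigid_AD c hc0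
  -- `n ^ (1 + δ) ≤ c n ^ 2` for large `n`
  have h1 : Filter.Tendsto (fun n : ℕ => (n : ℝ) ^ (1 - δ)) Filter.atTop Filter.atTop :=
    (tendsto_rpow_atTop (by linarith)).comp tendsto_natCast_atTop_atTop
  obtain ⟨N2, hN2⟩ := Filter.eventually_atTop.1 (h1.eventually_ge_atTop (1 / c))
  refine ⟨max (max N1 N2) 1, fun n hn r s hr hs => ?_⟩
  have hn1 : N1 ≤ n := le_trans (le_trans (le_max_left _ _) (le_max_left _ _)) hn
  have hn2 : N2 ≤ n := le_trans (le_trans (le_max_right _ _) (le_max_left _ _)) hn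
  have hn3 : 1 ≤ n := le_trans (le_max_right _ _) hn
  have hn0 : (0 : ℝ) < n := by exact_mod_cast hn3
  have hrn : r ≤ n := by
    have : (r : ℝ) ≤ n := hr.trans (by nlinarith)
    exact_mod_cast this
  have h2 : 1 ≤ c * (n : ℝ) ^ (1 - δ) := by
    have := hN2 n hn2
    rw [div_le_iff₀ hc0] at this
    linarith
  have h3 : (n : ℝ) ^ (1 + δ) ≤ c * (n : ℝ) ^ 2 := by
    have h4 : (n : ℝ) ^ (1 + δ) * (n : ℝ) ^ (1 - δ) = (n : ℝ) ^ 2 := by
      rw [← Real.rpow_add hn0, ← Real.rpow_natCast]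
      congr 1
      push_cast
      ring
    have h5 : 0 < (n : ℝ) ^ (1 + δ) := Real.rpow_pos_of_pos hn0 _
    calc (n : ℝ) ^ (1 + δ) = (n : ℝ) ^ (1 + δ) * 1 := by ring
      _ ≤ (n : ℝ) ^ (1 + δ) * (c * (n : ℝ) ^ (1 - δ)) := mul_le_mul_of_nonneg_left h2 h5.le
      _ = c * ((n : ℝ) ^ (1 + δ) * (n : ℝ) ^ (1 - δ)) := by ring
      _ = c * (n : ℝ) ^ 2 := by rw [h4]
  have h6 : Rigid ((AD n).map (algebraMap ℝ ℂ)) r s := by
    refine hN1 n hn1 r hrn s (hs.trans (h3.trans ?_))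
    have h7 : (1 - ε) * (n : ℝ) ≤ (n : ℝ) - r := by linarith
    have h8 : 0 ≤ (1 - ε) * (n : ℝ) := mul_nonneg (by linarith) hn0.le
    have h9 : ((1 - ε) * (n : ℝ)) ^ 2 ≤ ((n : ℝ) - r) ^ 2 := pow_le_pow_left₀ h8 h7 2
    rw [hc]
    nlinarith
  exact ⟨rigid_of_complex hrn h6, h6⟩

end Pool.Agent.V8H60.Rig
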