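import Mathlib

/-!
Linear independence of positive real radicals over the rational numbers (helper60).
-/

set_option autoImplicit false

open Polynomial IntermediateField

namespace Pool.Agent.V8H60.Rig

/-- the minimal polynomial of a positive real radical is a binomial -/
theorem minpoly_radical {γ : ℝ} (hγ : 0 < γ) {D : ℕ} (hD : D ≠ 0) {q : ℚ} (h : γ ^ D = q) :
    ∃ (m : ℕ) (r : ℚ), m ≠ 0 ∧ minpoly ℚ γ = X ^ m - C r := by
  have hint : IsIntegral ℚ γ := by
    refine IsIntegral.of_pow (Nat.pos_of_ne_zero hD) ?_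
    rw [h]
    exact isIntegral_algebraMap (R := ℚ) (A := ℝ) (x := q)
  have hm : Module.finrank ℚ ℚ⟮γ⟯ = (minpoly ℚ γ).natDegree := adjoin.finrank hint
  set m := (minpoly ℚ γ).natDegree with hmdef
  have hm0 : 0 < m := minpoly.natDegree_pos hint
  set g : ℚ⟮γ⟯ := AdjoinSimple.gen ℚ γ with hg
  have hgD : g ^ D = algebraMap ℚ ℚ⟮γ⟯ q := by
    apply (algebraMap ℚ⟮γ⟯ ℝ).injective
    rw [map_pow, hg, AdjoinSimple.algebraMap_gen, h]
    rfl
  have hN : (Algebra.norm ℚ g) ^ D = q ^ m := by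
    rw [← map_pow, hgD, Algebra.norm_algebraMap, hm]
  have hr : γ ^ m = ((|Algebra.norm ℚ g| : ℚ) : ℝ) := by
    rw [← pow_left_inj₀ (pow_nonneg hγ.le _) (by exact_mod_cast abs_nonneg _) hD, ← pow_mul,
      mul_comm, pow_mul, h]
    have h1 : |Algebra.norm ℚ g| ^ D = q ^ m := by
      rw [← abs_pow, hN, abs_of_nonneg]
      have hq : (0 : ℝ) < q := by rw [← h]; positivity
      have hq' : 0 < q := by exact_mod_cast hq
      positivity
    exact_mod_cast h1.symm
  refine ⟨m, |Algebra.norm ℚ g|, hm0.ne', ?_⟩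
  have hmon : (X ^ m - C |Algebra.norm ℚ g| : ℚ[X]).Monic := monic_X_pow_sub_C _ hm0.ne'
  have hdvd : minpoly ℚ γ ∣ X ^ m - C |Algebra.norm ℚ g| := by
    apply minpoly.dvd
    rw [map_sub, map_pow, aeval_X, aeval_C, hr]
    exact sub_self _
  refine (eq_of_monic_of_dvd_of_natDegree_le (minpoly.monic hint) hmon hdvd ?_).symm
  rw [natDegree_X_pow_sub_C]

/-- the trace of an irrational positive real radical vanishes -/
theorem trace_radical (K : IntermediateField ℚ ℝ) [FiniteDimensional ℚ K] (x : K)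
    (hx : 0 < (x : ℝ)) {D : ℕ} (hD : D ≠ 0) {q : ℚ} (h : (x : ℝ) ^ D = q)
    (hirr : ∀ r : ℚ, (x : ℝ) ≠ r) : Algebra.trace ℚ K x = 0 := by
  obtain ⟨m, r, hm, hmr⟩ := minpoly_radical hx hD h
  have h1 : minpoly ℚ x = X ^ m - C r := by
    rw [← hmr]
    exact (minpoly.algebraMap_eq (algebraMap K ℝ).injective x).symm
  have hm1 : m ≠ 1 := by
    rintro rfl
    have h2 := minpoly.aeval ℚ (x : ℝ)
    rw [hmr, pow_one, map_sub, aeval_X, aeval_C] at h2
    exact hirr r (sub_eq_zero.1 h2)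
  rw [trace_eq_finrank_mul_minpoly_nextCoeff, h1]
  have h3 : (X ^ m - C r : ℚ[X]).nextCoeff = 0 := by
    rw [nextCoeff_of_natDegree_pos (by rw [natDegree_X_pow_sub_C]; omega), natDegree_X_pow_sub_C,
      coeff_sub, coeff_X_pow, coeff_C, if_neg (by omega), if_neg (by omega), sub_zero]
  rw [h3]
  simp

/-- positive real radicals with irrational ratios are linearly independent -/
theorem linearIndependent_radical {ι : Type*} (β : ι → ℝ) (hβ : ∀ i, 0 < β i) {D : ℕ} (hD : D ≠ 0)
    (hq : ∀ i, ∃ q : ℚ, β i ^ D = q) (hr : ∀ i j, i ≠ j → ∀ r : ℚ, β i / β j ≠ r) :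
    LinearIndependent ℚ β := by
  classical
  rw [linearIndependent_iff']
  intro s c hsum j hj
  -- the ratios
  set γ : ι → ℝ := fun i => β i / β j with hγ
  have hγint : ∀ i, IsIntegral ℚ (γ i) := by
    intro i
    refine IsIntegral.of_pow (Nat.pos_of_ne_zero hD) ?_
    obtain ⟨q1, h1⟩ := hq i
    obtain ⟨q2, h2⟩ := hq j
    rw [hγ]
    simp only
    rw [div_pow, h1, h2]
    have : ((q1 : ℝ) / q2) = algebraMap ℚ ℝ (q1 / q2) := by simp
    rw [this]
    exact isIntegral_algebraMap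
  set K : IntermediateField ℚ ℝ := IntermediateField.adjoin ℚ (γ '' s) with hK
  have : FiniteDimensional ℚ K := by
    refine IntermediateField.finiteDimensional_adjoin ?_
    rintro x ⟨i, -, rfl⟩
    exact hγint i
  have hmem : ∀ i ∈ s, γ i ∈ K := fun i hi =>
    IntermediateField.subset_adjoin ℚ _ ⟨i, hi, rfl⟩
  set g : ι → K := fun i => if h : i ∈ s then ⟨γ i, hmem i h⟩ else 0 with hg
  have hgi : ∀ i ∈ s, (g i : ℝ) = γ i := by
    intro i hi
    simp only [hg, dif_pos hi]
  have hsum2 : ∑ i ∈ s, c i • g i = 0 := by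
    apply Subtype.ext
    have h1 : ((∑ i ∈ s, c i • g i : K) : ℝ) = ∑ i ∈ s, c i • γ i := by
      rw [AddSubmonoidClass.coe_finsetSum]
      refine Finset.sum_congr rfl fun i hi => ?_
      rw [← hgi i hi]
      rfl
    rw [h1]
    have h2 : ∑ i ∈ s, c i • γ i = (∑ i ∈ s, c i • β i) / β j := by
      rw [Finset.sum_div]
      refine Finset.sum_congr rfl fun i hi => ?_
      rw [hγ]
      simp only [Algebra.smul_def]
      ring
    rw [h2, hsum, zero_div]
    rfl
  have htr := congrArg (Algebra.trace ℚ K) hsum2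
  rw [map_sum, map_zero, Finset.sum_eq_single_of_mem j hj] at htr
  · have hgj : g j = 1 := by
      apply Subtype.ext
      rw [hgi j hj, hγ]
      simp only
      rw [div_self (hβ j).ne']
      rfl
    rw [map_smul, hgj, ← map_one (algebraMap ℚ K), Algebra.trace_algebraMap, smul_eq_mul] at htr
    have hfr : (Module.finrank ℚ K : ℚ) ≠ 0 := by
      exact_mod_cast (Module.finrank_pos (R := ℚ) (M := K)).ne'
    simpa [hfr] using htr
  · intro i hi hij
    rw [map_smul]
    obtain ⟨q1, h1⟩ := hq i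
    obtain ⟨q2, h2⟩ := hq j
    rw [trace_radical K (g i) (by rw [hgi i hi]; exact div_pos (hβ i) (hβ j)) hD (q := q1 / q2)
      (by rw [hgi i hi, hγ]; simp only; rw [div_pow, h1, h2]; push_cast; rfl)
      (by rw [hgi i hi]; exact hr i j hij), smul_zero]

/-- monomials in the `D`-th roots of distinct primes -/
theorem linearIndependent_monomials {ι : Type*} [Fintype ι] (p : ι → ℕ) (hp : ∀ i, (p i).Prime)
    (hinj : Function.Injective p) {D : ℕ} (hD : D ≠ 0) (x : ι → ℝ) (hx : ∀ i, 0 < x i)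
    (hxD : ∀ i, x i ^ D = p i) :
    LinearIndependent ℚ (fun e : ι → Fin D => ∏ i, x i ^ (e i : ℕ)) := by
  classical
  have hpow : ∀ e : ι → Fin D, (∏ i, x i ^ (e i : ℕ)) ^ D = ((∏ i, (p i : ℚ) ^ (e i : ℕ) : ℚ) : ℝ) := by
    intro e
    rw [← Finset.prod_pow]
    push_cast
    refine Finset.prod_congr rfl fun i _ => ?_
    rw [← pow_mul, mul_comm, pow_mul, hxD]
  have hpos : ∀ e : ι → Fin D, 0 < ∏ i, x i ^ (e i : ℕ) := fun e =>
    Finset.prod_pos fun i _ => pow_pos (hx i) _
  refine linearIndependent_radical _ hpos hD (fun e => ⟨_, hpow e⟩) ?_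
  intro e e' hee r hr
  apply hee
  have hr0 : r ≠ 0 := by
    rintro rfl
    have := div_pos (hpos e) (hpos e')
    rw [hr] at this
    simp at this
  have h1 : (∏ i, (p i : ℚ) ^ (e i : ℕ) : ℚ) = r ^ D * ∏ i, (p i : ℚ) ^ (e' i : ℕ) := by
    have h2 : (∏ i, x i ^ (e i : ℕ)) = r * ∏ i, x i ^ (e' i : ℕ) := by
      rw [← hr, div_mul_cancel₀ _ (hpos e').ne']
    have h3 := congrArg (fun y => y ^ D) h2
    rw [mul_pow, hpow, hpow] at h3
    exact_mod_cast h3
  funext j
  have : Fact (p j).Prime := ⟨hp j⟩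
  have hval : ∀ f : ι → Fin D, padicValRat (p j) (∏ i, (p i : ℚ) ^ (f i : ℕ)) = (f j : ℕ) := by
    intro f
    have hne : ∀ i, ((p i : ℚ)) ≠ 0 := fun i => by exact_mod_cast (hp i).ne_zero
    have hgen : ∀ s : Finset ι, padicValRat (p j) (∏ i ∈ s, (p i : ℚ) ^ (f i : ℕ)) =
        ∑ i ∈ s, padicValRat (p j) ((p i : ℚ) ^ (f i : ℕ)) := by
      intro s
      induction s using Finset.induction_on with
      | empty => simp
      | insert a s ha ih =>
        rw [Finset.prod_insert ha, Finset.sum_insert ha, padicValRat.mul (pow_ne_zero _ (hne a))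
          (Finset.prod_ne_zero_iff.2 fun i _ => pow_ne_zero _ (hne i)), ih]
    rw [hgen, Finset.sum_eq_single_of_mem j (Finset.mem_univ j)]
    · rw [padicValRat.pow, padicValRat.of_nat, padicValNat_self]
      simp
    · intro i _ hij
      have : Fact (p i).Prime := ⟨hp i⟩
      rw [padicValRat.pow, padicValRat.of_nat,
        padicValNat_primes (fun h => hij (hinj h).symm)]
      simp
  have h4 := congrArg (padicValRat (p j)) h1
  rw [padicValRat.mul (pow_ne_zero _ hr0) (Finset.prod_ne_zero_iff.2 fun i _ => pow_ne_zero _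
    (by exact_mod_cast (hp i).ne_zero)), hval, hval, padicValRat.pow] at h4
  apply Fin.ext
  have h5 : ((e j : ℕ) : ℤ) % D = ((e' j : ℕ) : ℤ) % D := by
    rw [h4, Int.mul_add_emod_self_left]
  have h6 := (e j).2
  have h7 := (e' j).2
  rw [Int.emod_eq_of_lt (by positivity) (by exact_mod_cast h6),
    Int.emod_eq_of_lt (by positivity) (by exact_mod_cast h7)] at h5
  exact_mod_cast h5

end Pool.Agent.V8H60.Rig
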