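import Pool.Agent.V8H60.Rig.Span

/-!
Matrices of radicals are rigid (helper60).
-/

set_option autoImplicit false

namespace Pool.Agent.V8H60.Rig

/-- `r` rows which span all rows of a matrix of rank at most `r` -/
theorem exists_rows {F : Type*} [Field F] {n : ℕ} (R : Matrix (Fin n) (Fin n) F) {r : ℕ}
    (hr : R.rank ≤ r) (hrn : r ≤ n) :
    ∃ I : Finset (Fin n), I.card = r ∧ ∃ W : Fin n → Fin n → F,
      ∀ i j, R i j = ∑ k ∈ I, W i k * R k j := by
  classical
  obtain ⟨κ, a, ha, hspan, hind⟩ := exists_linearIndependent' F (fun i : Fin n => R.row i)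
  have : Finite κ := Finite.of_injective a ha
  have : Fintype κ := Fintype.ofFinite κ
  have hcard : Fintype.card κ ≤ r := by
    have h1 := finrank_span_eq_card hind
    rw [hspan] at h1
    rw [← h1]
    rw [Matrix.rank_eq_finrank_span_row] at hr
    exact hr
  set I0 : Finset (Fin n) := Finset.univ.image a with hI0
  have hI0c : I0.card ≤ r := (Finset.card_image_le).trans (by simpa using hcard)
  obtain ⟨I, hI, hIc⟩ := Finset.exists_superset_card_eq hI0c (by simpa using hrn)
  refine ⟨I, hIc, ?_⟩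
  have hmem : ∀ i, ∃ w : Fin n → F, R.row i = ∑ k ∈ I, w k • R.row k := by
    intro i
    have h1 : R.row i ∈ Submodule.span F (Set.range (fun k => R.row k)) :=
      Submodule.subset_span ⟨i, rfl⟩
    rw [← hspan] at h1
    have h2 : Set.range ((fun k => R.row k) ∘ a) ⊆ (fun k => R.row k) '' (I : Set (Fin n)) := by
      rintro z ⟨k, rfl⟩
      exact ⟨a k, hI (Finset.mem_image_of_mem _ (Finset.mem_univ _)), rfl⟩
    have h3 := Submodule.span_mono (R := F) h2 h1
    rw [Submodule.mem_span_image_finset_iff_exists_fun] at h3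
    obtain ⟨w, hw⟩ := h3
    refine ⟨fun k => if h : k ∈ I then w ⟨k, h⟩ else 0, ?_⟩
    rw [← hw, ← Finset.sum_coe_sort I]
    refine Finset.sum_congr rfl fun k _ => ?_
    show _ = (if h : (k : Fin n) ∈ I then w ⟨k, h⟩ else 0) • R.row k
    rw [dif_pos k.2]
  choose W hW using hmem
  refine ⟨W, fun i j => ?_⟩
  have h1 := congrFun (hW i) j
  rw [Finset.sum_apply] at h1
  exact h1

/-- the rank does not increase under an extension of the field -/
theorem rank_map_le {n : ℕ} (R : Matrix (Fin n) (Fin n) ℝ) {r : ℕ} (hr : R.rank ≤ r)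
    (hrn : r ≤ n) : (R.map (algebraMap ℝ ℂ)).rank ≤ r := by
  classical
  obtain ⟨I, hI, W, hW⟩ := exists_rows R hr hrn
  rw [Matrix.rank_eq_finrank_span_row]
  have h1 : Submodule.span ℂ (Set.range (R.map (algebraMap ℝ ℂ)).row) ≤
      Submodule.span ℂ ((I.image (R.map (algebraMap ℝ ℂ)).row : Finset (Fin n → ℂ)) :
        Set (Fin n → ℂ)) := by
    rw [Submodule.span_le]
    rintro z ⟨i, rfl⟩
    have h2 : (R.map (algebraMap ℝ ℂ)).row i =
        ∑ k ∈ I, (W i k : ℂ) • (R.map (algebraMap ℝ ℂ)).row k := by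
      funext j
      rw [Finset.sum_apply]
      show ((R i j : ℝ) : ℂ) = _
      rw [hW i j]
      push_cast
      rfl
    rw [h2]
    refine Submodule.sum_mem _ fun k hk => Submodule.smul_mem _ _ (Submodule.subset_span ?_)
    exact Finset.mem_coe.2 (Finset.mem_image_of_mem _ hk)
  refine (Submodule.finrank_mono h1).trans ?_
  refine (finrank_span_finset_le_card _).trans ?_
  rw [← hI]
  exact Finset.card_image_le

/-- the dimension count for a matrix of radicals -/
theorem count_matrix {n d r : ℕ} (hd : 0 < d) (hrn : r ≤ n) (q : Fin n × Fin n → ℕ)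
    (hq : ∀ e, (q e).Prime) (hinj : Function.Injective q) (x : Fin n × Fin n → ℝ)
    (hx : ∀ e, 0 < x e) (hxD : ∀ e, x e ^ (d + 1) = q e) (R S : Matrix (Fin n) (Fin n) ℂ)
    (hRS : ∀ i j, (x (i, j) : ℂ) = R i j + S i j) (hR : R.rank ≤ r) :
    ((d : ℝ) + 1) ^ (n * n) ≤ (1 + 1 / (d : ℝ)) ^ (2 * d * (n * n)) *
      ((d : ℝ) + 1) ^ ((n - r) * r + r * n +
        (Finset.univ.filter fun e : Fin n × Fin n => S e.1 e.2 ≠ 0).card) := by
  classical
  obtain ⟨I, hIc, W, hW⟩ := exists_rows R hR hrn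
  have hind := linearIndependent_monomials q hq hinj (Nat.succ_ne_zero d) x hx hxD
  have hind2 : LinearIndependent ℚ
      (fun a : Fin n × Fin n → Fin (d + 1) => ∏ e, (x e : ℂ) ^ (a e : ℕ)) := by
    have h1 := hind.map' (Complex.ofRealAm.restrictScalars ℚ).toLinearMap (by
      rw [LinearMap.ker_eq_bot]
      exact Complex.ofReal_injective)
    convert! h1 using 1
    funext a
    simp
  set U := ({i : Fin n // i ∉ I} × {k : Fin n // k ∈ I}) ⊕ ({k : Fin n // k ∈ I} × Fin n) with hU
  set u : U → ℂ := Sum.elim (fun p => W p.1 p.2) (fun p => R p.1 p.2) with hu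
  have hcU : Fintype.card U = (n - r) * r + r * n := by
    show Fintype.card (({i : Fin n // i ∉ I} × {k : Fin n // k ∈ I}) ⊕
      ({k : Fin n // k ∈ I} × Fin n)) = _
    rw [Fintype.card_sum, Fintype.card_prod, Fintype.card_prod, Fintype.card_fin,
      Fintype.card_coe, hIc]
    congr 2
    rw [Fintype.card_subtype_compl, Fintype.card_fin, Fintype.card_coe, hIc]
  have hgen1 : ∀ v : U, ∃ m : U → ℕ, ∑ i, m i = 1 ∧ u v = ∏ i, u i ^ m i := by
    intro v
    refine ⟨Pi.single v 1, by rw [Finset.sum_pi_single']; simp, ?_⟩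
    rw [Finset.prod_eq_single v]
    · simp
    · intro b _ hb
      rw [Pi.single_eq_of_ne hb, pow_zero]
    · simp
  have h := key hd (fun e : Fin n × Fin n => (x e : ℂ)) (fun e => S e.1 e.2)
    (Finset.univ.filter fun e : Fin n × Fin n => S e.1 e.2 ≠ 0) (by
      intro e he
      simpa using he) u (fun e => R e.1 e.2) (fun e => hRS e.1 e.2) (by
      rintro ⟨i, j⟩
      by_cases hi : i ∈ I
      · obtain ⟨m, hm, hme⟩ := hgen1 (Sum.inr (⟨i, hi⟩, j))
        refine Submodule.subset_span ⟨m, by omega, ?_⟩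
        rw [← hme]
        rfl
      · show R i j ∈ _
        rw [hW i j]
        refine Submodule.sum_mem _ fun k hk => ?_
        obtain ⟨m, hm, hme⟩ := hgen1 (Sum.inl (⟨i, hi⟩, ⟨k, hk⟩))
        obtain ⟨m', hm', hme'⟩ := hgen1 (Sum.inr (⟨k, hk⟩, j))
        refine Submodule.subset_span ⟨m + m', ?_, ?_⟩
        · simp only [Pi.add_apply, Finset.sum_add_distrib]
          omega
        · simp only [Pi.add_apply, pow_add, Finset.prod_mul_distrib]
          rw [← hme, ← hme']
          rfl) hind2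
  have hE : Fintype.card (Fin n × Fin n) = n * n := by simp
  rw [hE, hcU] at h
  exact h

/-- near-maximal rigidity of matrices of radicals of distinct primes -/
theorem rigid_radicals {n D r : ℕ} (hD : 2 ≤ D) (hrn : r ≤ n) (q : Fin n × Fin n → ℕ)
    (hq : ∀ e, (q e).Prime) (hinj : Function.Injective q) (x : Fin n × Fin n → ℝ)
    (hx : ∀ e, 0 < x e) (hxD : ∀ e, x e ^ D = q e) (R S : Matrix (Fin n) (Fin n) ℂ)
    (hRS : ∀ i j, (x (i, j) : ℂ) = R i j + S i j) (hR : R.rank ≤ r) :
    ((n : ℝ) - r) ^ 2 - 2 * (n : ℝ) ^ 2 / Real.log D ≤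
      ((Finset.univ.filter fun e : Fin n × Fin n => S e.1 e.2 ≠ 0).card : ℝ) := by
  obtain ⟨d, rfl⟩ : ∃ d, D = d + 1 := ⟨D - 1, by omega⟩
  have hd : 0 < d := by omega
  have hd' : (0 : ℝ) < d := by exact_mod_cast hd
  have h := count_matrix hd hrn q hq hinj x hx hxD R S hRS hR
  set s := (Finset.univ.filter fun e : Fin n × Fin n => S e.1 e.2 ≠ 0).card with hs
  have hl : 0 < Real.log ((d + 1 : ℕ) : ℝ) := by
    apply Real.log_pos
    push_cast
    linarith
  have h1 : (1 + 1 / (d : ℝ)) ^ (2 * d * (n * n)) ≤ Real.exp (2 * (n * n : ℕ)) := by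
    have h2 : 1 + 1 / (d : ℝ) ≤ Real.exp (1 / d) := by
      have := Real.add_one_le_exp (1 / (d : ℝ))
      linarith
    calc (1 + 1 / (d : ℝ)) ^ (2 * d * (n * n)) ≤ (Real.exp (1 / d)) ^ (2 * d * (n * n)) :=
          pow_le_pow_left₀ (by positivity) h2 _
      _ = Real.exp (2 * (n * n : ℕ)) := by
          rw [← Real.exp_nat_mul]
          congr 1
          push_cast
          field_simp
  have h2 := h.trans (mul_le_mul_of_nonneg_right h1 (by positivity))
  have h3 := Real.log_le_log (by positivity) h2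
  rw [Real.log_mul (Real.exp_pos _).ne' (by positivity), Real.log_exp, Real.log_pow,
    Real.log_pow] at h3
  have hcast : ((d : ℝ) + 1) = ((d + 1 : ℕ) : ℝ) := by push_cast; ring
  rw [hcast] at h3
  have h4 : (((n - r) * r + r * n + s : ℕ) : ℝ) = 2 * n * r - r ^ 2 + s := by
    push_cast [Nat.cast_sub hrn]
    ring
  rw [h4] at h3
  push_cast at h3 hl ⊢
  rw [sub_le_iff_le_add, ← sub_le_iff_le_add', le_div_iff₀ hl]
  nlinarith

end Pool.Agent.V8H60.Rig
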