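import Pool.Agent.V8H60.Rig.Radical
import Pool.Agent.V8H60.Rig.Count

/-!
The dimension count (helper60).
-/

set_option autoImplicit false

namespace Pool.Agent.V8H60.Rig

section

variable {U E : Type*} [Fintype U] [Fintype E]

/-- generators of degree `c` -/
def G (u : U → ℂ) (S : E → ℂ) (T : Finset E) (c : E → ℕ) : Set ℂ :=
  {z | ∃ (m : U → ℕ) (k : E → ℕ), ∑ i, m i ≤ 2 * ∑ e, c e ∧ (∀ e, k e ≤ c e) ∧
    (∀ e, e ∉ T → k e = 0) ∧ z = (∏ i, u i ^ m i) * ∏ e, S e ^ k e}

/-- the span of the generators -/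
noncomputable def L (u : U → ℂ) (S : E → ℂ) (T : Finset E) (c : E → ℕ) : Submodule ℚ ℂ :=
  Submodule.span ℚ (G u S T c)

instance (u : U → ℂ) (S : E → ℂ) (T : Finset E) : SetLike.GradedMonoid (L u S T) where
  one_mem := by
    refine Submodule.subset_span ⟨fun _ => 0, fun _ => 0, by simp, by simp, by simp, by simp⟩
  mul_mem := by
    intro c c' x y hx hy
    have h1 : x * y ∈ (L u S T c) * (L u S T c') := Submodule.mul_mem_mul hx hy
    have h2 : (L u S T c) * (L u S T c') ≤ L u S T (c + c') := by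
      unfold L
      rw [Submodule.span_mul_span]
      refine Submodule.span_mono ?_
      rintro z ⟨a, ⟨m, k, h1, h2, h3, rfl⟩, b, ⟨m', k', h1', h2', h3', rfl⟩, rfl⟩
      refine ⟨m + m', k + k', ?_, ?_, ?_, ?_⟩
      · simp only [Pi.add_apply, Finset.sum_add_distrib]
        omega
      · intro e
        exact add_le_add (h2 e) (h2' e)
      · intro e he
        simp only [Pi.add_apply, h3 e he, h3' e he]
      · simp only [Pi.add_apply, pow_add, Finset.prod_mul_distrib]
        ring
    exact h2 h1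

variable [DecidableEq U] [DecidableEq E]

/-- the exponents of degree at most `t` -/
def expo (U : Type*) [Fintype U] [DecidableEq U] (t : ℕ) : Finset (U → ℕ) :=
  (Fintype.piFinset (fun _ : U => Finset.range (t + 1))).filter (fun a => ∑ i, a i ≤ t)

theorem mem_expo {t : ℕ} {a : U → ℕ} : a ∈ expo U t ↔ ∑ i, a i ≤ t := by
  unfold expo
  rw [Finset.mem_filter, Fintype.mem_piFinset]
  constructor
  · exact fun h => h.2
  · intro h
    refine ⟨fun i => ?_, h⟩
    rw [Finset.mem_range]
    have := Finset.single_le_sum (f := a) (fun j _ => Nat.zero_le _) (Finset.mem_univ i)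
    omega

/-- the dimension count -/
theorem key {d : ℕ} (hd : 0 < d) (α S : E → ℂ) (T : Finset E) (hT : ∀ e, e ∉ T → S e = 0)
    (u : U → ℂ) (P : E → ℂ) (hα : ∀ e, α e = P e + S e)
    (hP : ∀ e, P e ∈ Submodule.span ℚ {z : ℂ | ∃ m : U → ℕ, ∑ i, m i ≤ 2 ∧ z = ∏ i, u i ^ m i})
    (hind : LinearIndependent ℚ (fun a : E → Fin (d + 1) => ∏ e, α e ^ (a e : ℕ))) :
    ((d : ℝ) + 1) ^ Fintype.card E ≤
      (1 + 1 / (d : ℝ)) ^ (2 * d * Fintype.card E) * ((d : ℝ) + 1) ^ (Fintype.card U + T.card) := by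
  -- each entry has degree one
  have h1 : ∀ e, α e ∈ L u S T (Pi.single e 1) := by
    intro e
    rw [hα]
    refine Submodule.add_mem _ ?_ ?_
    · refine Submodule.span_mono ?_ (hP e)
      rintro z ⟨m, hm, rfl⟩
      refine ⟨m, fun _ => 0, ?_, fun _ => Nat.zero_le _, fun _ _ => rfl, by simp⟩
      rw [Finset.sum_pi_single']
      simpa using hm
    · by_cases he : e ∈ T
      · refine Submodule.subset_span ⟨fun _ => 0, Pi.single e 1, by simp, fun _ => le_rfl, ?_, ?_⟩
        · intro e' he'
          rw [Pi.single_eq_of_ne]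
          rintro rfl
          exact he' he
        · rw [Finset.prod_eq_single e]
          · simp
          · intro b _ hb
            rw [Pi.single_eq_of_ne hb, pow_zero]
          · simp
      · rw [hT e he]
        exact Submodule.zero_mem _
  -- the finite set of generators
  set N := Fintype.card E with hN
  set F : (expo U (2 * d * N)) × (T → Fin (d + 1)) → ℂ :=
    fun q => (∏ i, u i ^ (q.1 : U → ℕ) i) * ∏ t : T, S t ^ (q.2 t : ℕ) with hF
  have h2 : ∀ a : E → Fin (d + 1), ∏ e, α e ^ (a e : ℕ) ∈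
      Submodule.span ℚ (Set.range F) := by
    intro a
    have h3 := SetLike.prod_pow_mem_graded (L u S T) (fun e => Pi.single e 1) α
      (F := Finset.univ) (fun e => (a e : ℕ)) (fun e _ => h1 e)
    refine Submodule.span_mono ?_ h3
    have h4 : (∑ e : E, (a e : ℕ) • (Pi.single e 1 : E → ℕ)) = fun e => (a e : ℕ) := by
      funext e
      rw [Finset.sum_apply, Finset.sum_eq_single e]
      · simp
      · intro b _ hb
        simp [Pi.single_eq_of_ne hb.symm]
      · simp
    rw [h4]
    rintro z ⟨m, k, k1, k2, k3, rfl⟩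
    have hm : m ∈ expo U (2 * d * N) := by
      rw [mem_expo]
      refine k1.trans ?_
      have : ∑ e : E, ((a e : ℕ)) ≤ ∑ _e : E, d := Finset.sum_le_sum fun e _ => by
        have := (a e).2
        omega
      rw [Finset.sum_const, Finset.card_univ, smul_eq_mul, ← hN] at this
      calc 2 * ∑ e : E, ((a e : ℕ)) ≤ 2 * (N * d) := Nat.mul_le_mul_left _ this
        _ = _ := by ring
    refine ⟨(⟨m, hm⟩, fun t => ⟨k t, by
      have h' : k t ≤ (a t : ℕ) := k2 t
      have := (a t).2
      omega⟩), ?_⟩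
    simp only [hF]
    congr 1
    rw [Finset.prod_coe_sort T (fun e => S e ^ k e)]
    refine Finset.prod_subset (Finset.subset_univ _) ?_
    intro e _ he
    rw [k3 e he, pow_zero]
  -- dimensions
  have h5 : Submodule.span ℚ (Set.range (fun a : E → Fin (d + 1) => ∏ e, α e ^ (a e : ℕ))) ≤
      Submodule.span ℚ (Set.range F) := by
    rw [Submodule.span_le]
    rintro z ⟨a, rfl⟩
    exact h2 a
  have h6 := finrank_span_eq_card hind
  have : FiniteDimensional ℚ (Submodule.span ℚ (Set.range F)) :=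
    FiniteDimensional.span_of_finite ℚ (Set.finite_range F)
  have h7 := Submodule.finrank_mono h5
  have h8 : Module.finrank ℚ (Submodule.span ℚ (Set.range F)) ≤
      Fintype.card ((expo U (2 * d * N)) × (T → Fin (d + 1))) := finrank_range_le_card F
  rw [h6] at h7
  have h9 := h7.trans h8
  rw [Fintype.card_prod, Fintype.card_fun, Fintype.card_fun, Fintype.card_fin,
    Fintype.card_coe, Fintype.card_coe, ← hN] at h9
  have h10 := count_le hd (2 * d * N) (expo U (2 * d * N)) (fun a ha => mem_expo.1 ha)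
  have h11 : (((d + 1) ^ N : ℕ) : ℝ) ≤ (((expo U (2 * d * N)).card * (d + 1) ^ T.card : ℕ) : ℝ) := by
    exact_mod_cast h9
  push_cast at h11
  calc ((d : ℝ) + 1) ^ N ≤ ((expo U (2 * d * N)).card : ℝ) * ((d : ℝ) + 1) ^ T.card := h11
    _ ≤ ((1 + 1 / (d : ℝ)) ^ (2 * d * N) * ((d : ℝ) + 1) ^ Fintype.card U) *
        ((d : ℝ) + 1) ^ T.card := mul_le_mul_of_nonneg_right h10 (by positivity)
    _ = _ := by rw [pow_add]; ring

end

end Pool.Agent.V8H60.Rig
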